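import Pool.Agent.W957.CH.Stm2

/-! CH-FIN: contradiction for long cycles. -/

set_option autoImplicit false

namespace Pool.Agent.W683.CH

open Pool.Agent.W957.CH

theorem t_FIN (h1 : S_LA1) (h2 : S_LA2) (h3 : S_INI) (h4 : S_ZON) : S_FIN := by
  intro V _ X n c τ σ N s hS hn hN hT
  obtain ⟨x, y, K, hP⟩ := h1 V X n c τ σ ((UU X.m X.B.card + 2) * ((τ + 1) * (N + 2))) hS
    (Nat.succ_le_of_lt (by positivity)) hT
  obtain ⟨x', y', K', hL⟩ := h2 V X n c τ σ _ N x y K hS hP le_rfl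
  obtain ⟨l1, l2, w1, w2, L1, L2, hI⟩ := h3 V X n c τ σ N ((3 * σ + 18) * (s + 1)) x' y' K' hS hL
    (Nat.succ_le_of_lt (by positivity)) hN
  exact h4 V X n c τ σ N s ((3 * σ + 18) * (s + 1)) x' y' K' l1 l2 w1 w2 L1 L2 hS hL le_rfl
    (le_trans (Nat.le_add_right _ _) hN) hn hI

end Pool.Agent.W683.CH
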